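import Pool.Agent.H953R3.Q2.Fin2

set_option autoImplicit false

/-! Tuples of twisted diagrams and Vassiliev invariants of order at most two (helper562). -/

namespace Pool.Agent.TH562.Tup

open Finset Pool.Agent.H891R2.Jones Pool.Agent.H891R2.MT Pool.Agent.H832R3.VJ
open Pool.Agent.H953R3.Q2

open Classical in
/-- fibres over the restriction to the indices different from `i` -/
theorem card_le_of_fibre {T : Type} [Fintype T] [DecidableEq T] {X : T → Type} (S : ∀ t, Finset (X t))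
    (Bad : Finset (∀ t, X t)) (hBad : Bad ⊆ Fintype.piFinset S) (i : T) (c d M : ℕ)
    (h : ∀ (m : ∀ t : {t // t ≠ i}, X t) (B : Finset (∀ t, X t)), B ⊆ Bad →
      (∀ n ∈ B, ∀ t : {t // t ≠ i}, n t = m t) → M * #B ≤ c)
    (hcd : c ≤ d * #(S i)) :
    M * #Bad ≤ d * ∏ t, #(S t) := by
  have h1 := Finset.card_eq_sum_card_fiberwise (s := Bad)
    (t := Fintype.piFinset (fun t : {t // t ≠ i} => S t))
    (f := fun n (t : {t // t ≠ i}) => n t) (fun n hn => by
      rw [Finset.mem_coe, Fintype.mem_piFinset]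
      intro t
      exact Fintype.mem_piFinset.1 (hBad hn) t)
  rw [h1, Finset.mul_sum]
  have h2 : ∀ m ∈ Fintype.piFinset (fun t : {t // t ≠ i} => S t),
      M * #{n ∈ Bad | (fun (t : {t // t ≠ i}) => n t) = m} ≤ c := by
    intro m _
    refine h m _ (Finset.filter_subset _ _) ?_
    intro n hn t
    exact congrFun (Finset.mem_filter.1 hn).2 t
  refine (Finset.sum_le_sum h2).trans ?_
  rw [Finset.sum_const, smul_eq_mul, Fintype.card_piFinset]
  have h3 : ∏ t, #(S t) = #(S i) * ∏ t : {t // t ≠ i}, #(S t) := by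
    rw [← Finset.mul_prod_erase Finset.univ (fun t => #(S t)) (Finset.mem_univ i)]
    congr 1
    refine Finset.prod_subtype (Finset.univ.erase i) ?_ _
    intro t
    simp
  rw [h3]
  calc _ ≤ (∏ t : {t // t ≠ i}, #(S t)) * (d * #(S i)) := Nat.mul_le_mul_left _ hcd
    _ = _ := by ring

/-- the diagrams number `i` and `j` of the tuple of links are, for some directions, not separated by
Vassiliev invariants of order at most two -/
def Alike {T : ℕ} {k : Fin T → ℕ} (Γ : ∀ i, Ribbon (k i)) (n : ∀ i, Fin (k i) → ℤ)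
    (i j : Fin T) : Prop :=
  ∃ (D : Diagram (Ribbon.Pt (n i))) (D' : Diagram (Ribbon.Pt (n j))),
    Orients D ((Γ i).link (n i)) ∧ D.IsClosed ∧ Orients D' ((Γ j).link (n j)) ∧ D'.IsClosed ∧
      ¬ Separated 2 ⟨_, inferInstance, D⟩ ⟨_, inferInstance, D'⟩

open Classical in
theorem count_two {T : ℕ} {k : Fin T → ℕ} (Γ : ∀ i, Ribbon (k i)) (hΓ : ∀ i, (Γ i).Planar)
    (hk : ∀ i, (Γ i).verts ≤ k i) (F : ∀ i, Finset (Fin (k i)))
    (hF : ∀ i, (F i)ᶜ.card + (Γ i).comps (F i)ᶜ = (Γ i).verts) (M : ℕ)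
    (A : ∀ i, Fin (k i) → Finset ℤ) (hA : ∀ i, Balanced M (F i) (A i)) (i j : Fin T)
    (hij : j ≠ i) :
    M * #{n ∈ Fintype.piFinset (fun i => Fintype.piFinset (A i)) | Alike Γ n i j} ≤
      2 * ∏ i, #(Fintype.piFinset (A i)) := by
  refine card_le_of_fibre (X := fun i => Fin (k i) → ℤ) (fun i => Fintype.piFinset (A i))
    ({n ∈ Fintype.piFinset (fun i => Fintype.piFinset (A i)) | Alike Γ n i j})
    (Finset.filter_subset _ _) i (2 * ∏ e, #(A i e)) 2 M ?_ ?_
  · intro m B hB hBm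
    set m' : Fin (k j) → ℤ := m ⟨j, hij⟩ with hm'
    refine le_trans (Nat.mul_le_mul_left _ ?_) (count_kap (Γ i) (hΓ i) (hk i) (F i)
      (hF i) (kap ((Γ j).link m').std.bracket)
      (moment 0 ((Γ j).link m').std.bracket ^ 2) (A i) M (hA i).zmod)
    refine Finset.card_le_card_of_injOn (fun n => n i) ?_ ?_
    · intro n hn
      have hm := hBm n (Finset.mem_coe.1 hn)
      obtain ⟨hn, D, D', hD, -, hD', -, h⟩ := Finset.mem_filter.1 (hB (Finset.mem_coe.1 hn))
      have e1 : n j = m' := hm ⟨j, hij⟩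
      have h0 : Same D.fPoly D'.fPoly := same_of' h
      have h4 := h0.inv
      have h5 := fPoly_inv (Γ i) (pos_of_planar (Γ i) (hΓ i)) (n i) D hD
      have h6 := fPoly_inv (Γ j) (pos_of_planar (Γ j) (hΓ j)) (n j) D' hD'
      rw [Finset.mem_coe, Finset.mem_filter]
      refine ⟨Fintype.mem_piFinset.1 hn i, ?_, ?_⟩
      · rw [← e1, ← h5.1, h4.1, h6.1]
      · rw [← e1, ← h5.2, h4.2, h6.2]
    · intro n hn n' hn' h
      have a1 := hBm n (Finset.mem_coe.1 hn)
      have a2 := hBm n' (Finset.mem_coe.1 hn')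
      funext t
      by_cases ht : t = i
      · subst ht
        exact h
      · exact (a1 ⟨t, ht⟩).trans (a2 ⟨t, ht⟩).symm
  · rw [Fintype.card_piFinset]

open Classical in
/-- **Tuples of twisted diagrams.** -/
theorem count_tuples {T : ℕ} {k : Fin T → ℕ} (Γ : ∀ i, Ribbon (k i)) (hΓ : ∀ i, (Γ i).Planar)
    (hk : ∀ i, (Γ i).verts ≤ k i) (F : ∀ i, Finset (Fin (k i)))
    (hF : ∀ i, (F i)ᶜ.card + (Γ i).comps (F i)ᶜ = (Γ i).verts) (M : ℕ)
    (A : ∀ i, Fin (k i) → Finset ℤ) (hA : ∀ i, Balanced M (F i) (A i)) :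
    M * {n : ∀ i, Fin (k i) → ℤ | (∀ i e, n i e ∈ A i e) ∧ ∃ i j, i ≠ j ∧ Alike Γ n i j}.ncard ≤
      2 * T ^ 2 * ∏ i, ∏ e, (A i e).card := by
  set S := Fintype.piFinset (fun i => Fintype.piFinset (A i)) with hS
  have hset : {n : ∀ i, Fin (k i) → ℤ | (∀ i e, n i e ∈ A i e) ∧ ∃ i j, i ≠ j ∧ Alike Γ n i j} ⊆
      ((Finset.univ.biUnion fun p : Fin T × Fin T => if p.2 ≠ p.1 then
        {n ∈ S | Alike Γ n p.1 p.2} else ∅ : Finset (∀ i, Fin (k i) → ℤ)) :
        Set (∀ i, Fin (k i) → ℤ)) := by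
    rintro n ⟨hn, i, j, hij, h⟩
    rw [Finset.mem_coe, Finset.mem_biUnion]
    refine ⟨(i, j), Finset.mem_univ _, ?_⟩
    rw [if_pos (Ne.symm hij), Finset.mem_filter]
    refine ⟨?_, h⟩
    rw [hS, Fintype.mem_piFinset]
    intro t
    rw [Fintype.mem_piFinset]
    intro e
    exact hn t e
  have h1 := Set.ncard_le_ncard hset (Finset.finite_toSet _)
  rw [Set.ncard_coe_finset] at h1
  refine (Nat.mul_le_mul_left _ (h1.trans Finset.card_biUnion_le)).trans ?_
  rw [Finset.mul_sum]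
  have h2 : ∀ p : Fin T × Fin T, M * #(if p.2 ≠ p.1 then {n ∈ S | Alike Γ n p.1 p.2} else ∅) ≤
      2 * ∏ i, ∏ e, (A i e).card := by
    intro p
    by_cases hp : p.2 ≠ p.1
    · rw [if_pos hp]
      have := count_two Γ hΓ hk F hF M A hA p.1 p.2 hp
      simp only [Fintype.card_piFinset] at this
      exact this
    · rw [if_neg hp]
      simp
  refine (Finset.sum_le_sum fun p _ => h2 p).trans ?_
  rw [Finset.sum_const, smul_eq_mul, Finset.card_univ, Fintype.card_prod, Fintype.card_fin]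
  apply le_of_eq
  ring

end Pool.Agent.TH562.Tup
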